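import Pool.Agent.Run7.h333.AC.TS

/-!
# Semiconjugacies which are bijective on the periodic points
-/

set_option autoImplicit false
set_option linter.unusedSectionVars false

open Filter Topology Set

namespace Pool.Agent.Run7.h491.AC

open Pool.Agent.Y331.EP

section general

variable {Z : Type*} [MetricSpace Z]

/-- `b` is reached from `a` by arbitrarily fine chains with at least one step -/
def CH (F : Z → Z) (a b : Z) : Prop := ∀ δ > 0, ∃ n, Rn F δ (n + 1) a b

theorem CH.trans {F : Z → Z} {a b c : Z} (h1 : CH F a b) (h2 : CH F b c) : CH F a c := by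
  intro δ hδ
  obtain ⟨n, hn⟩ := h1 δ hδ
  obtain ⟨m, hm⟩ := h2 δ hδ
  refine ⟨n + 1 + m, ?_⟩
  have h3 := hn.comp hm
  rwa [← add_assoc] at h3

theorem CH.orbit (F : Z → Z) {n : ℕ} (hn : 1 ≤ n) (a : Z) : CH F a (F^[n] a) := by
  intro δ hδ
  obtain ⟨m, rfl⟩ := Nat.exists_eq_add_of_le hn
  refine ⟨m, ?_⟩
  rw [add_comm 1 m]
  exact Rn.orbit F hδ (m + 1) a

/-- chain reachability is a closed relation -/
theorem CH.closed {F : Z → Z} (hF : Continuous F) {a b : ℕ → Z} {a0 b0 : Z}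
    (ha : Tendsto a atTop (𝓝 a0)) (hb : Tendsto b atTop (𝓝 b0)) (h : ∀ k, CH F (a k) (b k)) :
    CH F a0 b0 := by
  intro δ hδ
  have h1 : Tendsto (fun k => F (a k)) atTop (𝓝 (F a0)) := (hF.tendsto a0).comp ha
  obtain ⟨k, hk1, hk2⟩ := ((Metric.tendsto_nhds.1 h1 (δ / 3) (by linarith)).and
    (Metric.tendsto_nhds.1 hb (δ / 3) (by linarith))).exists
  obtain ⟨n, q, q1, q2, q3⟩ := h k (δ / 3) (by linarith)
  refine ⟨n, fun j => if j = 0 then a0 else if j = n + 1 then b0 else q j, ?_, rfl, ?_⟩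
  · intro j hj
    have h3 := q1 j hj
    by_cases j0 : j = 0
    · subst j0
      rw [q2] at h3
      by_cases n0 : n = 0
      · subst n0
        rw [q3] at h3
        have h4 := dist_triangle4 (F a0) (F (a k)) (b k) b0
        rw [dist_comm (F a0) (F (a k))] at h4
        simp only [if_true, Nat.zero_add, one_ne_zero, if_false]
        linarith
      · have h4 := dist_triangle_left (F a0) (q (0 + 1)) (F (a k))
        simp only [if_true, Nat.zero_add, one_ne_zero, if_false]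
        rw [if_neg (by omega)]
        rw [Nat.zero_add] at h3 h4
        linarith
    · by_cases j1 : j = n
      · subst j1
        rw [q3] at h3
        have h4 := dist_triangle (F (q j)) (b k) b0
        simp only [j0, if_false, if_true]
        rw [if_neg (by omega), if_neg (by omega)]
        linarith
      · simp only [j0, if_false]
        rw [if_neg (by omega), if_neg (by omega), if_neg (by omega)]
        linarith
  · simp only [if_true]
    rw [if_neg (by omega)]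

/-- images under uniformly continuous semiconjugacies -/
theorem CH.map {W : Type*} [MetricSpace W] {F : Z → Z} {G : W → W} {h : Z → W}
    (hc : UniformContinuous h) (hh : ∀ x, h (F x) = G (h x)) {a b : Z} (hab : CH F a b) :
    CH G (h a) (h b) := by
  intro δ hδ
  obtain ⟨η, hη, h1⟩ := Metric.uniformContinuous_iff.1 hc δ hδ
  obtain ⟨n, q, q1, q2, q3⟩ := hab η hη
  refine ⟨n, fun k => h (q k), fun k hk => ?_, ?_, ?_⟩
  · rw [← hh]
    exact h1 (q1 k hk)
  · show h (q 0) = h a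
    rw [q2]
  · show h (q (n + 1)) = h b
    rw [q3]

theorem ch_omega [CompactSpace Z] (F : Z ≃ₜ Z) {n : ℕ} (hn : 1 ≤ n) (y : Z) :
    ∃ (c : Z) (φ : ℕ → ℕ), StrictMono φ ∧
      Tendsto (fun k => F^[n * φ k] y) atTop (𝓝 c) ∧ CH F y c ∧ CH F c c := by
  obtain ⟨c, -, φ, hφ, hlim⟩ := isCompact_univ.tendsto_subseq
    (x := fun k => F^[n * (k + 1)] y) fun k => mem_univ _
  have hlt : ∀ k, n * (φ k + 1) < n * (φ (k + 1) + 1) := fun k =>
    Nat.mul_lt_mul_of_pos_left (by have := hφ (show k < k + 1 by omega); omega) (by omega)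
  refine ⟨c, fun k => φ k + 1, fun a b hab => Nat.add_lt_add_right (hφ hab) 1, hlim, ?_, ?_⟩
  · refine CH.closed F.continuous (tendsto_const_nhds (x := y)) hlim fun k => ?_
    exact CH.orbit F (Nat.mul_pos (by omega) (by omega)) y
  · have hlim2 : Tendsto (fun k => F^[n * (φ (k + 1) + 1)] y) atTop (𝓝 c) :=
      hlim.comp (tendsto_add_atTop_nat 1)
    refine CH.closed F.continuous hlim hlim2 fun k => ?_
    have h1 : n * (φ (k + 1) + 1) = (n * (φ (k + 1) + 1) - n * (φ k + 1)) + n * (φ k + 1) := by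
      have := hlt k
      omega
    show CH F (F^[n * (φ k + 1)] y) (F^[n * (φ (k + 1) + 1)] y)
    rw [h1, Function.iterate_add_apply]
    exact CH.orbit F (by have := hlt k; omega) _

theorem ch_alpha [CompactSpace Z] (F : Z ≃ₜ Z) {n : ℕ} (hn : 1 ≤ n) (y : Z) :
    ∃ (c : Z) (φ : ℕ → ℕ), StrictMono φ ∧
      Tendsto (fun k => F.symm^[n * φ k] y) atTop (𝓝 c) ∧ CH F c y ∧ CH F c c := by
  obtain ⟨c, -, φ, hφ, hlim⟩ := isCompact_univ.tendsto_subseq
    (x := fun k => F.symm^[n * (k + 1)] y) fun k => mem_univ _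
  have hlt : ∀ k, n * (φ k + 1) < n * (φ (k + 1) + 1) := fun k =>
    Nat.mul_lt_mul_of_pos_left (by have := hφ (show k < k + 1 by omega); omega) (by omega)
  have hinv : ∀ (m : ℕ) (w : Z), F^[m] (F.symm^[m] w) = w :=
    fun m w => (Function.LeftInverse.iterate F.apply_symm_apply m) w
  refine ⟨c, fun k => φ k + 1, fun a b hab => Nat.add_lt_add_right (hφ hab) 1, hlim, ?_, ?_⟩
  · refine CH.closed F.continuous hlim (tendsto_const_nhds (x := y)) fun k => ?_
    have h1 := CH.orbit F (n := n * (φ k + 1)) (Nat.mul_pos (by omega) (by omega))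
      (F.symm^[n * (φ k + 1)] y)
    rw [hinv] at h1
    exact h1
  · have hlim2 : Tendsto (fun k => F.symm^[n * (φ (k + 1) + 1)] y) atTop (𝓝 c) :=
      hlim.comp (tendsto_add_atTop_nat 1)
    refine CH.closed F.continuous hlim2 hlim fun k => ?_
    have h1 : n * (φ (k + 1) + 1) = (n * (φ (k + 1) + 1) - n * (φ k + 1)) + n * (φ k + 1) := by
      have := hlt k
      omega
    show CH F (F.symm^[n * (φ (k + 1) + 1)] y) (F.symm^[n * (φ k + 1)] y)
    rw [h1, Function.iterate_add_apply]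
    have h2 := CH.orbit F (n := n * (φ (k + 1) + 1) - n * (φ k + 1))
      (by have := hlt k; omega) (F.symm^[n * (φ (k + 1) + 1) - n * (φ k + 1)]
        (F.symm^[n * (φ k + 1)] y))
    rw [hinv] at h2
    exact h2

end general

variable {X : Type*} [MetricSpace X]

/-- chain recurrent points are limits of periodic points -/
theorem ch_closing {f : X ≃ₜ X} {e : ℝ} (hE : Ex f e) (hS : Shad f) {ε : ℝ} (hε : 0 < ε)
    {a b : X} (h1 : CH f a b) (h2 : CH f b a) :
    ∃ n m : ℕ, 1 ≤ n ∧ 1 ≤ m ∧ ∃ p, f^[n] p = p ∧ dist a p ≤ ε ∧ dist b (f^[m] p) ≤ ε := by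
  have he := hE.pos
  obtain ⟨r, hr, hr1, hr2⟩ : ∃ r > 0, r ≤ ε ∧ 2 * r ≤ e :=
    ⟨min ε (e / 2), lt_min hε (by linarith), min_le_left _ _, by
      have := min_le_right ε (e / 2)
      linarith⟩
  obtain ⟨δ, hδ, hcl⟩ := closing hE hS hr hr2
  obtain ⟨n, hn⟩ := h1 δ hδ
  obtain ⟨m, q2, p1, r1, s1⟩ := h2 δ hδ
  obtain ⟨q1, p2, r2, s2⟩ := hn
  have e1 : q1 (n + 1) = q2 0 := by rw [s2, r1]
  have hq : ∀ k < n + 1 + (m + 1), dist (f (cat (n + 1) q1 q2 k))
      (cat (n + 1) q1 q2 (k + 1)) ≤ δ :=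
    Pth.cat (f := f) (fun k hk => (p2 k hk).le) (fun k hk => (p1 k hk).le) e1
  have hend : cat (n + 1) q1 q2 (n + 1 + (m + 1)) = cat (n + 1) q1 q2 0 := by
    rw [cat_ge e1, cat_le _ _ (Nat.zero_le _), s1, r2]
  obtain ⟨p, hp1, hp2⟩ := hcl (n + 1 + (m + 1)) (by omega) _ hq hend
  refine ⟨n + 1 + (m + 1), n + 1, by omega, by omega, p, hp1, ?_, ?_⟩
  · have h3 := hp2 0 (Nat.zero_le _)
    rw [cat_le _ _ (Nat.zero_le _), r2] at h3
    exact h3.trans hr1
  · have h3 := hp2 (n + 1) (by omega)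
    rw [cat_le _ _ le_rfl, s2] at h3
    exact h3.trans hr1

/-- if all periodic points are chained then everything is -/
theorem ch_of_per [CompactSpace X] {f : X ≃ₜ X} {e : ℝ} (hE : Ex f e) (hS : Shad f)
    (hP : ∀ n m : ℕ, 1 ≤ n → 1 ≤ m → ∀ p p' : X, f^[n] p = p → f^[m] p' = p' → CH f p p')
    (x x' : X) : CH f x x' := by
  obtain ⟨a, -, -, -, h1, h2⟩ := ch_omega f le_rfl x
  obtain ⟨b, -, -, -, h3, h4⟩ := ch_alpha f le_rfl x'
  have hlim : ∀ c : X, CH f c c → ∃ u : ℕ → X, Tendsto u atTop (𝓝 c) ∧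
      ∀ k, ∃ n, 1 ≤ n ∧ f^[n] (u k) = u k := by
    intro c hc
    have h5 : ∀ k : ℕ, ∃ p, (∃ n, 1 ≤ n ∧ f^[n] p = p) ∧ dist p c ≤ 1 / ((k : ℝ) + 1) := by
      intro k
      obtain ⟨n, m, hn, -, p, hp1, hp2, -⟩ := ch_closing hE hS
        (ε := 1 / ((k : ℝ) + 1)) (by positivity) hc hc
      exact ⟨p, ⟨n, hn, hp1⟩, by rw [dist_comm]; exact hp2⟩
    choose u hu1 hu2 using h5
    refine ⟨u, ?_, hu1⟩
    rw [tendsto_iff_dist_tendsto_zero]
    exact squeeze_zero (fun k => dist_nonneg) hu2 tendsto_one_div_add_atTop_nhds_zero_nat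
  obtain ⟨u, hu1, hu2⟩ := hlim a h2
  obtain ⟨v, hv1, hv2⟩ := hlim b h4
  have h5 : CH f a b := by
    refine CH.closed f.continuous hu1 hv1 fun k => ?_
    obtain ⟨n, hn, hn'⟩ := hu2 k
    obtain ⟨m, hm, hm'⟩ := hv2 k
    exact hP n m hn hm _ _ hn' hm'
  exact (h1.trans h5).trans h3

/-- chain transitivity and shadowing give transitivity -/
theorem tt_of_ch {f : X ≃ₜ X} (hS : Shad f) (h : ∀ x x' : X, CH f x x') : TT f := by
  intro U V hU hUn hV hVn
  obtain ⟨x, hx⟩ := hUn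
  obtain ⟨y, hy⟩ := hVn
  obtain ⟨r1, hr1, hr1'⟩ := Metric.isOpen_iff.1 hU x hx
  obtain ⟨r2, hr2, hr2'⟩ := Metric.isOpen_iff.1 hV y hy
  obtain ⟨ε, hε, hε1, hε2⟩ : ∃ ε > 0, ε < r1 ∧ ε < r2 :=
    ⟨min r1 r2 / 2, half_pos (lt_min hr1 hr2), by
      have := min_le_left r1 r2
      have := lt_min hr1 hr2
      linarith, by
      have := min_le_right r1 r2
      have := lt_min hr1 hr2
      linarith⟩
  obtain ⟨δ, hδ, hsh⟩ := hS ε hε
  obtain ⟨n, q, q1, q2, q3⟩ := h x y δ hδ
  obtain ⟨w, hw⟩ : ∃ w : ℤ → X, ∀ k, w k = if k < 0 then (f ^ k) x else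
      if k < n + 1 then q k.toNat else (f ^ (k - (n + 1))) y := ⟨_, fun k => rfl⟩
  obtain ⟨z, hz1, hz2⟩ := hsh w fun k => by
    have a1 := hw k
    have a2 := hw (k + 1)
    by_cases k0 : k < 0
    · rw [if_pos k0] at a1
      by_cases k1 : k + 1 < 0
      · rw [if_pos k1] at a2
        rw [a1, a2, zp_succ, dist_self]
        exact hδ.le
      · have k2 : k + 1 = 0 := by omega
        rw [k2, if_neg (lt_irrefl 0), if_pos (by omega), Int.toNat_zero, q2] at a2
        rw [k2, a1, a2, ← zp_succ, k2, zpow_zero]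
        show dist x x ≤ δ
        rw [dist_self]
        exact hδ.le
    · rw [if_neg k0] at a1
      rw [if_neg (by omega)] at a2
      by_cases k1 : k < n + 1
      · rw [if_pos k1] at a1
        obtain ⟨j, rfl⟩ := Int.eq_ofNat_of_zero_le (not_lt.1 k0)
        have hj : j < n + 1 := by exact_mod_cast k1
        have h3 := (q1 j hj).le
        rw [Int.toNat_natCast] at a1
        by_cases k2 : (j : ℤ) + 1 < n + 1
        · rw [if_pos k2] at a2
          have e1 : ((j : ℤ) + 1).toNat = j + 1 := by omega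
          rw [e1] at a2
          rw [a1, a2]
          exact h3
        · have k3 : j = n := by omega
          rw [if_neg k2] at a2
          subst k3
          rw [sub_self, zpow_zero] at a2
          rw [q3] at h3
          rw [a1, a2]
          exact h3
      · rw [if_neg k1] at a1
        rw [if_neg (by omega)] at a2
        have e1 : k - (n + 1) + 1 = k + 1 - (n + 1) := by ring
        rw [a1, a2, ← zp_succ, e1, dist_self]
        exact hδ.le
  have h0 := hz2 0
  have h1 := hz2 (n + 1)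
  rw [hw, if_neg (lt_irrefl 0), if_pos (by omega), Int.toNat_zero, q2] at h0
  rw [hw, if_neg (by omega), if_neg (lt_irrefl _), sub_self, zpow_zero] at h1
  refine ⟨n + 1, z (n + 1), ⟨z 0, hr1' ?_, ?_⟩, hr2' ?_⟩
  · rw [Metric.mem_ball, dist_comm]
    linarith
  · have h2 := orb_nat hz1 0 (n + 1)
    rw [zero_add] at h2
    rw [← h2]
    push_cast
    rfl
  · rw [Metric.mem_ball, dist_comm]
    change dist y (z (n + 1)) ≤ ε at h1
    linarith

/-- the fibre product -/
def FQ {f g : X ≃ₜ X} {h : X → X} (hh : ∀ x, h (f x) = g (h x)) :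
    {w : X × X // h w.1 = h w.2} ≃ₜ {w : X × X // h w.1 = h w.2} :=
  (f.prodCongr f).subtype fun w => by
    show h w.1 = h w.2 ↔ h (f w.1) = h (f w.2)
    rw [hh, hh]
    exact g.injective.eq_iff.symm

theorem FQ_coe {f g : X ≃ₜ X} {h : X → X} (hh : ∀ x, h (f x) = g (h x))
    (w : {w : X × X // h w.1 = h w.2}) : (FQ hh w).1 = (f w.1.1, f w.1.2) := rfl

theorem FQ_fst {f g : X ≃ₜ X} {h : X → X} (hh : ∀ x, h (f x) = g (h x)) (n : ℕ)
    (w : {w : X × X // h w.1 = h w.2}) : ((FQ hh)^[n] w).1.1 = f^[n] w.1.1 := by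
  induction n with
  | zero => rfl
  | succ n ih => rw [Function.iterate_succ_apply', Function.iterate_succ_apply', FQ_coe, ih]

theorem FQ_snd {f g : X ≃ₜ X} {h : X → X} (hh : ∀ x, h (f x) = g (h x)) (n : ℕ)
    (w : {w : X × X // h w.1 = h w.2}) : ((FQ hh)^[n] w).1.2 = f^[n] w.1.2 := by
  induction n with
  | zero => rfl
  | succ n ih => rw [Function.iterate_succ_apply', Function.iterate_succ_apply', FQ_coe, ih]

theorem FQ_symm_coe {f g : X ≃ₜ X} {h : X → X} (hh : ∀ x, h (f x) = g (h x))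
    (w : {w : X × X // h w.1 = h w.2}) : ((FQ hh).symm w).1 = (f.symm w.1.1, f.symm w.1.2) := rfl

theorem FQ_symm_fst {f g : X ≃ₜ X} {h : X → X} (hh : ∀ x, h (f x) = g (h x)) (n : ℕ)
    (w : {w : X × X // h w.1 = h w.2}) : ((FQ hh).symm^[n] w).1.1 = f.symm^[n] w.1.1 := by
  induction n with
  | zero => rfl
  | succ n ih => rw [Function.iterate_succ_apply', Function.iterate_succ_apply', FQ_symm_coe, ih]

theorem FQ_symm_snd {f g : X ≃ₜ X} {h : X → X} (hh : ∀ x, h (f x) = g (h x)) (n : ℕ)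
    (w : {w : X × X // h w.1 = h w.2}) : ((FQ hh).symm^[n] w).1.2 = f.symm^[n] w.1.2 := by
  induction n with
  | zero => rfl
  | succ n ih => rw [Function.iterate_succ_apply', Function.iterate_succ_apply', FQ_symm_coe, ih]

theorem fq_compact [CompactSpace X] {h : X → X} (hc : Continuous h) :
    CompactSpace {w : X × X // h w.1 = h w.2} :=
  isCompact_iff_compactSpace.1
    ((isClosed_eq (hc.comp continuous_fst) (hc.comp continuous_snd)).isCompact)

theorem uc_fst {h : X → X} :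
    UniformContinuous fun w : {w : X × X // h w.1 = h w.2} => w.1.1 :=
  uniformContinuous_fst.comp uniformContinuous_subtype_val

/-- **(1)** chain recurrent pairs are diagonal -/
theorem fq_diag [CompactSpace X] {f g : X ≃ₜ X} {h : X → X} {ef eg : ℝ}
    (hEf : Ex f ef) (hSf : Shad f) (hEg : Ex g eg)
    (hc : Continuous h) (hh : ∀ x, h (f x) = g (h x))
    (hI : ∀ n : ℕ, 1 ≤ n → ∀ q, g^[n] q = q → ∃! p, f^[n] p = p ∧ h p = q)
    (w : {w : X × X // h w.1 = h w.2}) (hw : CH (FQ hh) w w) : w.1.1 = w.1.2 := by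
  have hef := hEf.pos
  have heg := hEg.pos
  have huc : UniformContinuous h := CompactSpace.uniformContinuous_of_continuous hc
  refine eq_of_forall_dist_le fun s hs => ?_
  obtain ⟨η, hη, h1⟩ := Metric.uniformContinuous_iff.1 huc (eg / 2) (by linarith)
  obtain ⟨ε, hε, hε1, hε2, hε3⟩ : ∃ ε > 0, 2 * ε ≤ ef ∧ ε < η ∧ 2 * ε ≤ s :=
    ⟨min (min (ef / 2) (η / 2)) (s / 2), lt_min (lt_min (by linarith) (by linarith))
      (by linarith), by
        have := (min_le_left (min (ef / 2) (η / 2)) (s / 2)).trans (min_le_left _ _)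
        linarith, by
        have := (min_le_left (min (ef / 2) (η / 2)) (s / 2)).trans (min_le_right _ _)
        linarith, by
        have := min_le_right (min (ef / 2) (η / 2)) (s / 2)
        linarith⟩
  obtain ⟨δ, hδ, hcl⟩ := closing hEf hSf hε hε1
  obtain ⟨n, q, q1, q2, q3⟩ := hw δ hδ
  have h2 : ∀ k < n + 1, dist (f (q k).1.1) (q (k + 1)).1.1 ≤ δ ∧
      dist (f (q k).1.2) (q (k + 1)).1.2 ≤ δ := by
    intro k hk
    have h3 := (q1 k hk).le
    rw [Subtype.dist_eq, FQ_coe, Prod.dist_eq, max_le_iff] at h3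
    exact h3
  obtain ⟨p, p1, p2⟩ := hcl (n + 1) (by omega) (fun k => (q k).1.1)
    (fun k hk => (h2 k hk).1) (by show (q (n + 1)).1.1 = (q 0).1.1; rw [q3, q2])
  obtain ⟨p', p1', p2'⟩ := hcl (n + 1) (by omega) (fun k => (q k).1.2)
    (fun k hk => (h2 k hk).2) (by show (q (n + 1)).1.2 = (q 0).1.2; rw [q3, q2])
  have h4 : h p = h p' := by
    refine per_eq hEg (n := n + 1) (by omega) ?_ ?_ ?_
    · rw [← ts_iter hh, p1]
    · rw [← ts_iter hh, p1']
    · intro k hk
      rw [← ts_iter hh, ← ts_iter hh]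
      have h5 := (h1 ((p2 k hk.le).trans_lt hε2)).le
      have h6 := (h1 ((p2' k hk.le).trans_lt hε2)).le
      have h7 : h (q k).1.1 = h (q k).1.2 := (q k).2
      rw [← h7] at h6
      have h8 := dist_triangle_left (h (f^[k] p)) (h (f^[k] p')) (h (q k).1.1)
      linarith
  have h5 : p = p' := by
    refine (hI (n + 1) (by omega) (h p) (by rw [← ts_iter hh, p1])).unique ⟨p1, rfl⟩ ⟨p1', h4.symm⟩
  have h6 := p2 0 (Nat.zero_le _)
  have h7 := p2' 0 (Nat.zero_le _)
  change dist (q 0).1.1 p ≤ ε at h6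
  change dist (q 0).1.2 p' ≤ ε at h7
  rw [q2] at h6 h7
  rw [← h5] at h7
  have h8 := dist_triangle_right w.1.1 w.1.2 p
  linarith

/-- **(2)** the fibre over a periodic point is chained to the periodic point in it -/
theorem fq_per [CompactSpace X] {f g : X ≃ₜ X} {h : X → X} {ef eg : ℝ}
    (hEf : Ex f ef) (hSf : Shad f) (hEg : Ex g eg)
    (hc : Continuous h) (hh : ∀ x, h (f x) = g (h x))
    (hI : ∀ n : ℕ, 1 ≤ n → ∀ q, g^[n] q = q → ∃! p, f^[n] p = p ∧ h p = q)
    {n : ℕ} (hn : 1 ≤ n) {w p : X} (hw : g^[n] (h w) = h w) (hp : f^[n] p = p) (hpw : h p = h w) :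
    CH f w p ∧ CH f p w := by
  have hQ := fq_compact hc
  obtain ⟨Y, hY⟩ : ∃ Y : {w : X × X // h w.1 = h w.2}, Y.1 = (w, f^[n] w) :=
    ⟨⟨(w, f^[n] w), by show h w = h (f^[n] w); rw [ts_iter hh, hw]⟩, rfl⟩
  have hper : ∀ m : ℕ, g^[n * m] (h w) = h w := by
    intro m
    rw [Function.iterate_mul]
    exact Function.iterate_fixed hw m
  have hper' : ∀ m : ℕ, g.symm^[n * m] (h w) = h w := by
    intro m
    have h1 : g.symm^[n * m] (g^[n * m] (h w)) = h w :=
      (Function.LeftInverse.iterate g.symm_apply_apply (n * m)) (h w)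
    rwa [hper] at h1
  have hhs : ∀ x, h (f.symm x) = g.symm (h x) := by
    intro x
    rw [Homeomorph.eq_symm_apply, ← hh, f.apply_symm_apply]
  have huni : ∀ a : X, f^[n] a = a → h a = h w → a = p := fun a h1 h2 =>
    (hI n hn (h w) hw).unique ⟨h1, h2⟩ ⟨hp, hpw⟩
  constructor
  · obtain ⟨c, φ, hφ, hlim, h1, h2⟩ := ch_omega (FQ hh) hn Y
    have h3 := fq_diag hEf hSf hEg hc hh hI c h2
    have l1 : Tendsto (fun k => ((FQ hh)^[n * φ k] Y).1.1) atTop (𝓝 c.1.1) :=
      ((continuous_fst.comp continuous_subtype_val).tendsto c).comp hlim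
    have l2 : Tendsto (fun k => ((FQ hh)^[n * φ k] Y).1.2) atTop (𝓝 c.1.2) :=
      ((continuous_snd.comp continuous_subtype_val).tendsto c).comp hlim
    simp only [FQ_fst, FQ_snd, hY] at l1 l2
    have l3 : Tendsto (fun k => f^[n] (f^[n * φ k] w)) atTop (𝓝 (f^[n] c.1.1)) :=
      ((f.continuous.iterate n).tendsto _).comp l1
    have l4 : f^[n] c.1.1 = c.1.2 := by
      refine tendsto_nhds_unique l3 ?_
      refine l2.congr fun k => ?_
      rw [← Function.iterate_add_apply, ← Function.iterate_add_apply, add_comm]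
    have l5 : h c.1.1 = h w := by
      refine tendsto_nhds_unique ((hc.tendsto _).comp l1) ?_
      refine tendsto_const_nhds.congr fun k => ?_
      show h w = h (f^[n * φ k] w)
      rw [ts_iter hh, hper]
    have l6 : c.1.1 = p := huni _ (l4.trans h3.symm) l5
    have l7 := CH.map (G := f) uc_fst (fun x => by rfl) h1
    rw [← l6]
    have l8 : Y.1.1 = w := by rw [hY]
    rw [l8] at l7
    exact l7
  · obtain ⟨c, φ, hφ, hlim, h1, h2⟩ := ch_alpha (FQ hh) hn Y
    have h3 := fq_diag hEf hSf hEg hc hh hI c h2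
    have l1 : Tendsto (fun k => ((FQ hh).symm^[n * φ k] Y).1.1) atTop (𝓝 c.1.1) :=
      ((continuous_fst.comp continuous_subtype_val).tendsto c).comp hlim
    have l2 : Tendsto (fun k => ((FQ hh).symm^[n * φ k] Y).1.2) atTop (𝓝 c.1.2) :=
      ((continuous_snd.comp continuous_subtype_val).tendsto c).comp hlim
    simp only [FQ_symm_fst, FQ_symm_snd, hY] at l1 l2
    have l3 : Tendsto (fun k => f^[n] (f.symm^[n * φ k] w)) atTop (𝓝 (f^[n] c.1.1)) :=
      ((f.continuous.iterate n).tendsto _).comp l1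
    have l4 : f^[n] c.1.1 = c.1.2 := by
      refine tendsto_nhds_unique l3 ?_
      refine l2.congr fun k => ?_
      have hcomm : Function.Commute f.symm f := fun x => by
        rw [f.symm_apply_apply, f.apply_symm_apply]
      exact (hcomm.iterate_iterate _ _) w
    have l5 : h c.1.1 = h w := by
      refine tendsto_nhds_unique ((hc.tendsto _).comp l1) ?_
      refine tendsto_const_nhds.congr fun k => ?_
      show h w = h (f.symm^[n * φ k] w)
      rw [ts_iter hhs, hper']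
    have l6 : c.1.1 = p := huni _ (l4.trans h3.symm) l5
    have l7 := CH.map (G := f) uc_fst (fun x => by rfl) h1
    rw [← l6]
    have l8 : Y.1.1 = w := by rw [hY]
    rw [l8] at l7
    exact l7

/-- **(3)** the periodic points over chained periodic points are chained -/
theorem fq_lift [CompactSpace X] {f g : X ≃ₜ X} {h : X → X} {ef eg : ℝ}
    (hEf : Ex f ef) (hSf : Shad f) (hEg : Ex g eg) (hSg : Shad g)
    (hc : Continuous h) (hh : ∀ x, h (f x) = g (h x))
    (hI : ∀ n : ℕ, 1 ≤ n → ∀ q, g^[n] q = q → ∃! p, f^[n] p = p ∧ h p = q)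
    {n m : ℕ} (hn : 1 ≤ n) (hm : 1 ≤ m) {p p' : X} (hp : f^[n] p = p) (hp' : f^[m] p' = p')
    (h1 : CH g (h p) (h p')) (h2 : CH g (h p') (h p)) : CH f p p' := by
  have h3 : ∀ k : ℕ, ∃ y, ∃ j, 1 ≤ j ∧ dist (h y) (h p) ≤ 1 / ((k : ℝ) + 1) ∧
      dist (h (f^[j] y)) (h p') ≤ 1 / ((k : ℝ) + 1) := by
    intro k
    obtain ⟨N, j, hN, hj, z, z1, z2, z3⟩ := ch_closing hEg hSg
      (ε := 1 / ((k : ℝ) + 1)) (by positivity) h1 h2
    obtain ⟨y, ⟨-, hy2⟩, -⟩ := hI N hN z z1
    refine ⟨y, j, hj, ?_, ?_⟩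
    · rw [hy2, dist_comm]
      exact z2
    · rw [ts_iter hh, hy2, dist_comm]
      exact z3
  choose y j hj y1 y2 using h3
  obtain ⟨a, -, φ, hφ, hlim⟩ := isCompact_univ.tendsto_subseq
    (x := fun k => (y k, f^[j k] (y k))) fun k => mem_univ _
  have l1 : Tendsto (fun k => y (φ k)) atTop (𝓝 a.1) :=
    (continuous_fst.tendsto a).comp hlim
  have l2 : Tendsto (fun k => f^[j (φ k)] (y (φ k))) atTop (𝓝 a.2) :=
    (continuous_snd.tendsto a).comp hlim
  have l3 : CH f a.1 a.2 := CH.closed f.continuous l1 l2 fun k => CH.orbit f (hj _) _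
  have hz : Tendsto (fun k => 1 / ((φ k : ℝ) + 1)) atTop (𝓝 0) :=
    tendsto_one_div_add_atTop_nhds_zero_nat.comp hφ.tendsto_atTop
  have l4 : h a.1 = h p := by
    refine tendsto_nhds_unique ((hc.tendsto _).comp l1) ?_
    rw [tendsto_iff_dist_tendsto_zero]
    exact squeeze_zero (fun k => dist_nonneg) (fun k => y1 (φ k)) hz
  have l5 : h a.2 = h p' := by
    refine tendsto_nhds_unique ((hc.tendsto _).comp l2) ?_
    rw [tendsto_iff_dist_tendsto_zero]
    exact squeeze_zero (fun k => dist_nonneg) (fun k => y2 (φ k)) hz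
  have k1 : g^[n] (h a.1) = h a.1 := by rw [l4, ← ts_iter hh, hp]
  have k2 : g^[m] (h a.2) = h a.2 := by rw [l5, ← ts_iter hh, hp']
  have l6 := (fq_per hEf hSf hEg hc hh hI hn k1 hp l4.symm).2
  have l7 := (fq_per hEf hSf hEg hc hh hI hm k2 hp' l5.symm).1
  exact (l6.trans l3).trans l7

/-- Piece D -/
theorem D_main [CompactSpace X] {f g : X ≃ₜ X} {h : X → X} {ef eg : ℝ}
    (hEf : Ex f ef) (hSf : Shad f) (hEg : Ex g eg) (hSg : Shad g)
    (hc : Continuous h) (hh : ∀ x, h (f x) = g (h x))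
    (hI : ∀ n : ℕ, 1 ≤ n → ∀ q, g^[n] q = q → ∃! p, f^[n] p = p ∧ h p = q) :
    (TT f ↔ TT g) ∧ (TT g → Function.Bijective h) := by
  have huc : UniformContinuous h := CompactSpace.uniformContinuous_of_continuous hc
  have hA : TT g → ∀ x x' : X, CH f x x' := by
    intro hT
    refine ch_of_per hEf hSf fun n m hn hm p p' hp hp' => ?_
    exact fq_lift hEf hSf hEg hSg hc hh hI hn hm hp hp' (fun δ hδ => rn_all hT hδ _ _)
      (fun δ hδ => rn_all hT hδ _ _)
  refine ⟨⟨fun hT => ?_, fun hT => tt_of_ch hSf (hA hT)⟩, fun hT => ⟨?_, ?_⟩⟩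
  · refine tt_of_ch hSg (ch_of_per hEg hSg fun n m hn hm q q' hq hq' => ?_)
    obtain ⟨p, ⟨-, hp⟩, -⟩ := hI n hn q hq
    obtain ⟨p', ⟨-, hp'⟩, -⟩ := hI m hm q' hq'
    rw [← hp, ← hp']
    exact CH.map huc hh fun δ hδ => rn_all hT hδ _ _
  · intro y y' hyy
    have hQ := fq_compact hc
    obtain ⟨Y, hY⟩ : ∃ Y : {w : X × X // h w.1 = h w.2}, Y.1 = (y, y') := ⟨⟨(y, y'), hyy⟩, rfl⟩
    obtain ⟨c, -, -, -, h1, h2⟩ := ch_omega (FQ hh) le_rfl Y
    obtain ⟨d, -, -, -, h3, h4⟩ := ch_alpha (FQ hh) le_rfl Y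
    have h5 := fq_diag hEf hSf hEg hc hh hI c h2
    have h6 := fq_diag hEf hSf hEg hc hh hI d h4
    obtain ⟨D, hD⟩ : ∃ D : X → {w : X × X // h w.1 = h w.2}, ∀ x, D x = ⟨(x, x), rfl⟩ :=
      ⟨fun x => ⟨(x, x), rfl⟩, fun x => rfl⟩
    have hDc : UniformContinuous D := by
      rw [funext hD]
      exact (uniformContinuous_id.prodMk uniformContinuous_id).subtype_mk _
    have h7 := CH.map (G := FQ hh) hDc (fun x => by
      rw [hD, hD]
      rfl) (hA hT c.1.1 d.1.1)
    have h8 : D c.1.1 = c := by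
      rw [hD]
      exact Subtype.ext (Prod.ext rfl h5)
    have h9 : D d.1.1 = d := by
      rw [hD]
      exact Subtype.ext (Prod.ext rfl h6)
    rw [h8, h9] at h7
    have h10 := fq_diag hEf hSf hEg hc hh hI Y ((h1.trans h7).trans h3)
    rwa [hY] at h10
  · have hcl : IsClosed (range h) := (isCompact_range hc).isClosed
    rw [← Set.range_eq_univ, ← hcl.closure_eq]
    rw [eq_univ_iff_forall]
    intro x
    rw [Metric.mem_closure_iff]
    intro ε hε
    obtain ⟨n, m, hn, -, q, hq1, hq2, -⟩ := ch_closing hEg hSg (half_pos hε)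
      (fun δ hδ => rn_all hT hδ x x) (fun δ hδ => rn_all hT hδ x x)
    obtain ⟨p, ⟨-, hp⟩, -⟩ := hI n hn q hq1
    exact ⟨q, ⟨p, hp⟩, by linarith⟩

end Pool.Agent.Run7.h491.AC
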