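import Pool.Agent.Run7.h333.AC.D

/-!
# Semiconjugacies which are bijective on the periodic points: the non-transitive case
-/

set_option autoImplicit false
set_option linter.unusedSectionVars false

open Filter Topology Set

namespace Pool.Agent.Run7.h491.AC

open Pool.Agent.Y331.EP

section general

variable {Z : Type*} [MetricSpace Z]

/-- from the image of a chain recurrent point one returns to the point -/
theorem CH.back {F : Z → Z} (hF : UniformContinuous F) {y : Z} (h : CH F y y) : CH F (F y) y := by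
  intro δ hδ
  obtain ⟨η, hη, h1⟩ := Metric.uniformContinuous_iff.1 hF (δ / 2) (half_pos hδ)
  obtain ⟨θ, hθ, hθ1, hθ2⟩ : ∃ θ > 0, θ ≤ η ∧ θ ≤ δ / 2 :=
    ⟨min η (δ / 2), lt_min hη (half_pos hδ), min_le_left _ _, min_le_right _ _⟩
  obtain ⟨n, hn⟩ := h θ hθ
  have h2 := hn.comp hn
  obtain ⟨q, q1, q2, q3⟩ := h2
  refine ⟨n + n, fun k => if k = 0 then F y else q (k + 1), fun k hk => ?_, if_pos rfl, ?_⟩
  · by_cases k0 : k = 0
    · subst k0
      have h3 := q1 0 (by omega)
      have h4 := q1 1 (by omega)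
      rw [q2, Nat.zero_add] at h3
      have h5 := h1 (h3.trans_le hθ1)
      have h6 := dist_triangle (F (F y)) (F (q 1)) (q (1 + 1))
      simp only [if_true, Nat.zero_add, one_ne_zero, if_false]
      linarith
    · simp only [k0, if_false]
      rw [if_neg (by omega)]
      have h3 := q1 (k + 1) (by omega)
      linarith
  · show (if n + n + 1 = 0 then F y else q (n + n + 1 + 1)) = y
    rw [if_neg (by omega), ← q3]
    congr 1
    omega

theorem CH.back_iter {F : Z → Z} (hF : UniformContinuous F) {y : Z} (h : CH F y y) (n : ℕ) :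
    CH F (F^[n] y) y := by
  induction n with
  | zero => exact h
  | succ n ih =>
    rw [Function.iterate_succ_apply']
    have h1 : CH F (F^[n] y) (F^[n] y) := by
      rcases Nat.eq_zero_or_pos n with rfl | hn
      · exact h
      · exact ih.trans (CH.orbit F hn y)
    exact (CH.back hF h1).trans ih

end general

variable {X : Type*} [MetricSpace X]

/-- limits of periodic points are chain recurrent -/
theorem ch_self_of_closure {f : X ≃ₜ X} {x : X} (hx : x ∈ closure (Function.periodicPts f)) :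
    CH f x x := by
  obtain ⟨u, hu1, hu2⟩ := mem_closure_iff_seq_limit.1 hx
  refine CH.closed f.continuous hu2 hu2 fun k => ?_
  obtain ⟨n, hn, hp⟩ := hu1 k
  have h1 := CH.orbit f (n := n) hn (u k)
  rwa [hp.eq] at h1

/-- **(4)** a pair in the fibre product with a chain recurrent first coordinate is diagonal -/
theorem fq_cr [CompactSpace X] {f g : X ≃ₜ X} {h : X → X} {ef eg : ℝ}
    (hEf : Ex f ef) (hSf : Shad f) (hEg : Ex g eg)
    (hc : Continuous h) (hh : ∀ x, h (f x) = g (h x))
    (hI : ∀ n : ℕ, 1 ≤ n → ∀ q, g^[n] q = q → ∃! p, f^[n] p = p ∧ h p = q)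
    {y y' : X} (hyy : h y = h y') (hy : CH f y y) : y = y' := by
  have hQ := fq_compact hc
  have hfu : UniformContinuous f := CompactSpace.uniformContinuous_of_continuous f.continuous
  have hfs : UniformContinuous f.symm :=
    CompactSpace.uniformContinuous_of_continuous f.symm.continuous
  obtain ⟨Y, hY⟩ : ∃ Y : {w : X × X // h w.1 = h w.2}, Y.1 = (y, y') := ⟨⟨(y, y'), hyy⟩, rfl⟩
  obtain ⟨c, φ, -, hlc, h1, h2⟩ := ch_omega (FQ hh) le_rfl Y
  obtain ⟨d, ψ, -, hld, h3, h4⟩ := ch_alpha (FQ hh) le_rfl Y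
  have h5 := fq_diag hEf hSf hEg hc hh hI c h2
  have h6 := fq_diag hEf hSf hEg hc hh hI d h4
  have l1 : Tendsto (fun k => ((FQ hh)^[1 * φ k] Y).1.1) atTop (𝓝 c.1.1) :=
    ((continuous_fst.comp continuous_subtype_val).tendsto c).comp hlc
  have l2 : Tendsto (fun k => ((FQ hh).symm^[1 * ψ k] Y).1.1) atTop (𝓝 d.1.1) :=
    ((continuous_fst.comp continuous_subtype_val).tendsto d).comp hld
  simp only [FQ_fst, FQ_symm_fst, hY] at l1 l2
  have m1 : CH f c.1.1 y := by
    refine CH.closed f.continuous l1 tendsto_const_nhds fun k => ?_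
    exact CH.back_iter hfu hy _
  have m2 : CH f y d.1.1 := by
    refine CH.closed f.continuous tendsto_const_nhds l2 fun k => ?_
    have m3 : ∀ n : ℕ, CH f (f.symm^[n] y) (f.symm^[n] y) := by
      intro n
      induction n with
      | zero => exact hy
      | succ n ih =>
        rw [Function.iterate_succ_apply']
        exact CH.map (G := f) hfs (fun x => by rw [f.symm_apply_apply, f.apply_symm_apply]) ih
    have m4 := CH.back_iter hfu (m3 (1 * ψ k)) (1 * ψ k)
    rwa [(Function.LeftInverse.iterate f.apply_symm_apply (1 * ψ k)) y] at m4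
  obtain ⟨D, hD⟩ : ∃ D : X → {w : X × X // h w.1 = h w.2}, ∀ x, D x = ⟨(x, x), rfl⟩ :=
    ⟨fun x => ⟨(x, x), rfl⟩, fun x => rfl⟩
  have hDc : UniformContinuous D := by
    rw [funext hD]
    exact (uniformContinuous_id.prodMk uniformContinuous_id).subtype_mk _
  have h7 := CH.map (G := FQ hh) hDc (fun x => by
    rw [hD, hD]
    rfl) (m1.trans m2)
  have h8 : D c.1.1 = c := by
    rw [hD]
    exact Subtype.ext (Prod.ext rfl h5)
  have h9 : D d.1.1 = d := by
    rw [hD]
    exact Subtype.ext (Prod.ext rfl h6)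
  rw [h8, h9] at h7
  have h10 := fq_diag hEf hSf hEg hc hh hI Y ((h1.trans h7).trans h3)
  rwa [hY] at h10

/-- Piece D_omega -/
theorem D_omega [CompactSpace X] {f g : X ≃ₜ X} {h : X → X} {ef eg : ℝ}
    (hEf : Ex f ef) (hSf : Shad f) (hEg : Ex g eg) (_hSg : Shad g)
    (hc : Continuous h) (hh : ∀ x, h (f x) = g (h x))
    (hI : ∀ n : ℕ, 1 ≤ n → ∀ q, g^[n] q = q → ∃! p, f^[n] p = p ∧ h p = q) :
    Set.BijOn h (closure (Function.periodicPts f)) (closure (Function.periodicPts g)) ∧
      h ⁻¹' closure (Function.periodicPts g) = closure (Function.periodicPts f) := by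
  have hM : MapsTo h (closure (Function.periodicPts f)) (closure (Function.periodicPts g)) := by
    refine MapsTo.closure ?_ hc
    intro p hp
    obtain ⟨n, hn, hp⟩ := hp
    refine ⟨n, hn, ?_⟩
    show g^[n] (h p) = h p
    rw [← ts_iter hh, hp.eq]
  have hS : closure (Function.periodicPts g) ⊆ h '' closure (Function.periodicPts f) := by
    refine closure_minimal ?_ (isClosed_closure.isCompact.image hc).isClosed
    intro q hq
    obtain ⟨n, hn, hq⟩ := hq
    obtain ⟨p, ⟨hp1, hp2⟩, -⟩ := hI n hn q hq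
    exact ⟨p, subset_closure ⟨n, hn, hp1⟩, hp2⟩
  refine ⟨⟨hM, ?_, hS⟩, ?_⟩
  · intro y hy y' _ hyy
    exact fq_cr hEf hSf hEg hc hh hI hyy (ch_self_of_closure hy)
  · refine Subset.antisymm ?_ hM
    intro y hy
    obtain ⟨y', hy', hyy⟩ := hS hy
    have h1 := fq_cr hEf hSf hEg hc hh hI hyy (ch_self_of_closure hy')
    rwa [← h1]

end Pool.Agent.Run7.h491.AC
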