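import Pool.Agent.Y331.EP.Mix

/-!
# Topological stability of expansive homeomorphisms with the shadowing property
-/

set_option autoImplicit false
set_option linter.unusedSectionVars false

open Filter Topology Set

namespace Pool.Agent.Run7.h491.AC

open Pool.Agent.Y331.EP

variable {X : Type*} [MetricSpace X]

/-- iterates of a semiconjugated map -/
theorem ts_iter {f g : X ≃ₜ X} {h : X → X} (hh : ∀ x, h (f x) = g (h x)) (n : ℕ) (x : X) :
    h (f^[n] x) = g^[n] (h x) :=
  (Function.Semiconj.iterate_right (f := h) (ga := f) (gb := g) hh n) x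

/-- **Topological stability.** -/
theorem TS_main [CompactSpace X] {g : X ≃ₜ X} {eg : ℝ} (hE : Ex g eg) (hS : Shad g) :
    ∀ ε > 0, ∃ δ > 0, ∀ f : X ≃ₜ X, (∀ x, dist (f x) (g x) ≤ δ) →
      ∃ h : X → X, Continuous h ∧ (∀ x, h (f x) = g (h x)) ∧ ∀ x, dist (h x) x ≤ ε := by
  intro ε hε
  have he := hE.pos
  obtain ⟨r, hr, hr1, hr2⟩ : ∃ r > 0, r ≤ ε ∧ r ≤ eg / 3 :=
    ⟨min ε (eg / 3), lt_min hε (by linarith), min_le_left _ _, min_le_right _ _⟩
  obtain ⟨δ, hδ, hsh⟩ := hS r hr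
  refine ⟨δ, hδ, fun f hf => ?_⟩
  have key : ∀ y : X, ∃ z : ℤ → X, Orb g z ∧ ∀ n : ℤ, dist ((f ^ n) y) (z n) ≤ r := by
    intro y
    refine hsh (fun n => (f ^ n) y) fun n => ?_
    show dist (g ((f ^ n) y)) ((f ^ (n + 1)) y) ≤ δ
    rw [zp_succ, dist_comm]
    exact hf _
  choose z hz1 hz2 using key
  have huniq : ∀ (y : X) (u : ℤ → X), Orb g u → (∀ n : ℤ, dist ((f ^ n) y) (u n) ≤ r) →
      z y 0 = u 0 := by
    intro y u hu1 hu2
    refine hE.exp _ _ (hz1 y) hu1 fun n => ?_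
    have h1 := hz2 y n
    have h2 := hu2 n
    have h3 := dist_triangle_left (z y n) (u n) ((f ^ n) y)
    linarith
  obtain ⟨h, hh⟩ : ∃ h : X → X, ∀ y, h y = z y 0 := ⟨fun y => z y 0, fun y => rfl⟩
  have hsemi : ∀ x, h (f x) = g (h x) := by
    intro x
    rw [hh, hh]
    have h1 := huniq (f x) (fun n => z x (1 + n)) (orb_shift (hz1 x) 1) fun n => by
      have h2 := hz2 x (1 + n)
      have h3 : (f ^ n) (f x) = (f ^ (1 + n)) x := by
        rw [add_comm, zpow_add, zpow_one]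
        rfl
      rw [h3]
      exact h2
    rw [h1]
    have h4 := hz1 x 0
    rw [zero_add] at h4
    show z x (1 + 0) = g (z x 0)
    rw [add_zero, h4]
  have hclose : ∀ x, dist (h x) x ≤ r := by
    intro x
    have h1 := hz2 x 0
    rw [hh, dist_comm]
    simpa using h1
  refine ⟨h, ?_, hsemi, fun x => (hclose x).trans hr1⟩
  rw [continuous_iff_continuousAt]
  intro y
  rw [ContinuousAt, Metric.tendsto_nhds]
  intro θ hθ
  obtain ⟨T, hT⟩ := unif_nat hE (half_pos hθ)
  have hev : ∀ᶠ y' in 𝓝 y, ∀ k ∈ Finset.range (2 * T + 1),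
      dist (f^[k] (f.symm^[T] y')) (f^[k] (f.symm^[T] y)) < eg / 3 := by
    rw [Filter.eventually_all_finset]
    intro k _
    have hc : Continuous fun y' => f^[k] (f.symm^[T] y') :=
      (f.continuous.iterate k).comp (f.symm.continuous.iterate T)
    exact Metric.tendsto_nhds.1 (hc.tendsto y) (eg / 3) (by linarith)
  filter_upwards [hev] with y' hy'
  have hinv : ∀ w : X, f^[T] (f.symm^[T] w) = w :=
    fun w => (Function.LeftInverse.iterate f.apply_symm_apply T) w
  have h1 := hT (h (f.symm^[T] y')) (h (f.symm^[T] y)) fun k hk => by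
    rw [← ts_iter hsemi, ← ts_iter hsemi]
    have h2 := hy' k (Finset.mem_range.2 (by omega))
    have h3 := hclose (f^[k] (f.symm^[T] y'))
    have h4 := hclose (f^[k] (f.symm^[T] y))
    have h5 := dist_triangle4 (h (f^[k] (f.symm^[T] y'))) (f^[k] (f.symm^[T] y'))
      (f^[k] (f.symm^[T] y)) (h (f^[k] (f.symm^[T] y)))
    rw [dist_comm (h (f^[k] (f.symm^[T] y)))] at h4
    linarith
  rw [← ts_iter hsemi, ← ts_iter hsemi, hinv, hinv] at h1
  linarith

end Pool.Agent.Run7.h491.AC
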